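import Pool.Agent.Helper9.LT.NF4

/-!
# The levels of a simply connected kite complex
-/

set_option autoImplicit false

namespace Pool.Agent.Helper9.LT

open Relation Pool.Agent.Helper13.LT

variable {V P : Type} (I : P → V → Prop) (κ : V → Bool) (v₀ : V)

open Classical in
/-- The level. -/
noncomputable def lv (v : V) : ℕ := if h : ∃ l, Good I κ v₀ (v :: l) then h.choose.length else 0

open Classical in
/-- The gate of a panel. -/
noncomputable def gt (p : P) : V := if h : ∃ x m, Gw I κ v₀ p x m then h.choose else v₀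

variable {I κ v₀} (hK : KC I κ) (hS : SC I κ v₀)

include hK hS

theorem lv_good {v : V} {l : List V} (hg : Good I κ v₀ (v :: l)) : lv I κ v₀ v = l.length := by
  have h : ∃ l, Good I κ v₀ (v :: l) := ⟨l, hg⟩
  rw [lv, dif_pos h]
  have := E.length (unique_good hK hS h.choose_spec hg)
  simpa using this

theorem Gw.lv {p : P} {x y : V} {m : List V} (hG : Gw I κ v₀ p x m) (hy : I p y)
    (hne : y ≠ x) : (κ y ≠ κ x ∧ lv I κ v₀ y = lv I κ v₀ x + 1) ∨
      (κ y = κ x ∧ lv I κ v₀ y = lv I κ v₀ x + 2) := by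
  rw [lv_good hK hS hG.good]
  by_cases h : κ y = κ x
  · right
    obtain ⟨v, hv, kv⟩ := hK.opp p x hG.mem
    exact ⟨h, by rw [lv_good hK hS (hG.two hK hv kv hy h hne)]; rfl⟩
  · left
    exact ⟨h, by rw [lv_good hK hS (hG.one hy h)]; rfl⟩

theorem Gw.eq {p : P} {x x' : V} {m m' : List V} (hG : Gw I κ v₀ p x m)
    (hG' : Gw I κ v₀ p x' m') : x = x' := by
  by_contra hne
  have h1 := hG.lv hK hS hG'.mem (Ne.symm hne)
  have h2 := hG'.lv hK hS hG.mem hne
  omega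

theorem gt_eq {p : P} {x : V} {m : List V} (hG : Gw I κ v₀ p x m) : gt I κ v₀ p = x := by
  have h : ∃ x m, Gw I κ v₀ p x m := ⟨x, m, hG⟩
  rw [gt, dif_pos h]
  obtain ⟨m', hm'⟩ := h.choose_spec
  exact hm'.eq hK hS hG

theorem exists_gw {p : P} {v : V} (hv : I p v) : ∃ m, Gw I κ v₀ p (gt I κ v₀ p) m := by
  obtain ⟨l, hl⟩ := exists_good hK (hS.conn p v hv)
  obtain ⟨x, m, hG, -⟩ := exists_gate hK hl hv
  exact ⟨m, by rw [gt_eq hK hS hG]; exact hG⟩

theorem lev_gate {p : P} {v : V} (hv : I p v) : I p (gt I κ v₀ p) ∧ (v = gt I κ v₀ p ∨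
    (κ v ≠ κ (gt I κ v₀ p) ∧ lv I κ v₀ v = lv I κ v₀ (gt I κ v₀ p) + 1) ∨
    (κ v = κ (gt I κ v₀ p) ∧ lv I κ v₀ v = lv I κ v₀ (gt I κ v₀ p) + 2)) := by
  obtain ⟨m, hG⟩ := exists_gw hK hS hv
  refine ⟨hG.mem, ?_⟩
  by_cases h : v = gt I κ v₀ p
  · exact Or.inl h
  · exact Or.inr (hG.lv hK hS hv h)

theorem low_of {p : P} {v x : V} (hv : I p v) (hx : I p x) (k : κ x = κ v)
    (hl : lv I κ v₀ v = lv I κ v₀ x + 2) : Low I κ (gt I κ v₀) v p := by
  obtain ⟨h1, h2⟩ := lev_gate hK hS hv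
  obtain ⟨-, h3⟩ := lev_gate hK hS hx
  rcases h2 with h2 | ⟨h2, h4⟩ | ⟨h2, h4⟩
  · rcases h3 with h3 | ⟨h3, h5⟩ | ⟨h3, h5⟩
    · rw [h2, h3] at hl
      omega
    · rw [← h2] at h3
      exact (h3 k).elim
    · rw [← h2] at h5
      omega
  · rcases h3 with h3 | ⟨h3, h5⟩ | ⟨h3, h5⟩
    · rw [← h3] at h2
      exact (h2 k.symm).elim
    · omega
    · rw [k] at h3
      exact (h2 h3).elim
  · refine ⟨hv, ?_, h2.symm⟩
    intro h
    rw [h] at h4
    omega

theorem dn_of_lt {u v : V} {l : List V} (hg : Good I κ v₀ (v :: l)) (ha : Ad I κ u v)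
    (hlt : lv I κ v₀ u < lv I κ v₀ v) : ∃ l', E I κ (v :: l) (v :: u :: l') := by
  have h : Dn I κ (v :: l) u := by
    by_contra h
    have h1 := lv_good hK hS (Good.cons hg (Ad.symm ha) h)
    rw [lv_good hK hS hg] at hlt
    rw [h1] at hlt
    simp at hlt
  obtain ⟨a, l', h'⟩ := h
  obtain rfl := E.head_eq h'
  exact ⟨l', h'⟩

/-- Simply connected kite complexes have levels. -/
theorem exists_lev : ∃ ℓ gt, Lev I κ v₀ ℓ gt := by
  refine ⟨lv I κ v₀, gt I κ v₀, ?_, ?_, ?_, ?_⟩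
  · intro p v hv
    exact lev_gate hK hS hv
  · intro p v hv hne
    obtain ⟨l, hl⟩ := exists_good hK (hS.conn p v hv)
    cases hl with
    | nil => exact (hne rfl).elim
    | @cons _ u l' h1 h2 h3 =>
      have hg : Good I κ v₀ (v :: u :: l') := Good.cons h1 h2 h3
      obtain ⟨-, q, hqu, hqv⟩ := h2
      obtain ⟨m, hG⟩ := exists_gw hK hS hqv
      refine ⟨q, hqv, fun h => ?_⟩
      rw [h] at hG
      exact hG.low u hqu ⟨v, l', unique_good hK hS hG.good hg⟩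
  · intro p hp
    refine gt_eq hK hS (m := []) ⟨Good.nil, hp, ?_⟩
    rintro y _ ⟨a, l, h⟩
    have := E.length h
    simp at this
  · intro v u u' hu hu' hl hl' hne
    obtain ⟨p0, _, hv⟩ := hu.2
    obtain ⟨l, hg⟩ := exists_good hK (hS.conn p0 v hv)
    obtain ⟨l1, h1⟩ := dn_of_lt hK hS hg hu hl
    obtain ⟨l2, h2⟩ := dn_of_lt hK hS hg hu' hl'
    have hg1 := good_of_E hK hg h1
    have hg2 := good_of_E hK hg h2
    have lw : ∀ {u x : V} {l m : List V} {p : P}, Good I κ v₀ (v :: u :: l) →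
        E I κ (u :: l) (u :: x :: m) → I p v → I p x → κ x = κ v →
          Low I κ (gt I κ v₀) v p := by
      intro u x l m p g1 g2 g3 g4 g5
      refine low_of hK hS g3 g4 g5 ?_
      rw [lv_good hK hS g1, lv_good hK hS (good_of_E hK g1.tail g2).tail, E.length g2]
      rfl
    cases levi hK hg1 ((E.symm h1).trans h2) with
    | eq h _ => exact (hne h).elim
    | one p x m a1 a2 a3 a4 a5 a6 a7 =>
      exact Or.inl ⟨p, lw hg1 a6 a3 a2 a1, a4, a5⟩
    | two p q z x y m k b1 b2 b3 b4 b5 b6 b7 b8 b9 b10 b11 b12 b13 b14 b15 b16 =>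
      exact Or.inr ⟨b1, p, q, z, b2, lw hg1 b14 b3 b9 b12, lw hg2 b16 b4 b11 b13, b8, b10, b5,
        b6, b7⟩

end Pool.Agent.Helper9.LT
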