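import Pool.Agent.Helper13.LT.Defs

/-!
# Normal forms in kite complexes
-/

set_option autoImplicit false

namespace Pool.Agent.Helper9.LT

open Relation Pool.Agent.Helper13.LT

variable {V P : Type} (I : P → V → Prop) (κ : V → Bool)

/-- Moves of words (the head of the list is the last vertex): the middle vertex `u` of a path
`x u v` inside a panel is replaced by another one. -/
inductive Sw : List V → List V → Prop
  | here {p : P} {x v u u' : V} (l : List V) : I p x → I p v → I p u → I p u' → κ x = κ v →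
      κ u ≠ κ v → κ u' ≠ κ v → Sw (v :: u :: x :: l) (v :: u' :: x :: l)
  | cons (v : V) {w w' : List V} : Sw w w' → Sw (v :: w) (v :: w')

/-- Words which differ by moves. -/
abbrev E : List V → List V → Prop := ReflTransGen (Sw I κ)

variable {I κ}

theorem bb {a b c : Bool} (h : a ≠ c) (h' : b ≠ c) : a = b := by
  cases a <;> cases b <;> cases c <;> simp_all

theorem Sw.symm {w w' : List V} (h : Sw I κ w w') : Sw I κ w' w := by
  induction h with
  | here l h1 h2 h3 h4 h5 h6 h7 => exact Sw.here l h1 h2 h4 h3 h5 h7 h6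
  | cons v _ ih => exact Sw.cons v ih

theorem Sw.length {w w' : List V} (h : Sw I κ w w') : w.length = w'.length := by
  induction h with
  | here l _ _ _ _ _ _ _ => rfl
  | cons _ _ ih => simp [ih]

theorem E.symm {w w' : List V} (h : E I κ w w') : E I κ w' w := by
  induction h with
  | refl => exact ReflTransGen.refl
  | tail _ h2 ih => exact ih.head h2.symm

theorem E.length {w w' : List V} (h : E I κ w w') : w.length = w'.length := by
  induction h with
  | refl => rfl
  | tail _ h2 ih => rw [ih, h2.length]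

theorem E.cons (x : V) {w w' : List V} (h : E I κ w w') : E I κ (x :: w) (x :: w') := by
  induction h with
  | refl => exact ReflTransGen.refl
  | tail _ h2 ih => exact ih.tail (Sw.cons x h2)

theorem Sw.head {v : V} {w z : List V} (h : Sw I κ (v :: w) z) : ∃ w', z = v :: w' := by
  cases h with
  | here l _ _ _ _ _ _ _ => exact ⟨_, rfl⟩
  | cons _ _ => exact ⟨_, rfl⟩

theorem E.head {v : V} {w z : List V} (h : E I κ (v :: w) z) : ∃ w', z = v :: w' := by
  induction h with
  | refl => exact ⟨_, rfl⟩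
  | tail _ h2 ih =>
    obtain ⟨w', rfl⟩ := ih
    exact h2.head

/-- The move inside the panel `p`. -/
theorem E.here {p : P} {x v u u' : V} (l : List V) (h1 : I p x) (h2 : I p v) (h3 : I p u)
    (h4 : I p u') (h5 : κ x = κ v) (h6 : κ u ≠ κ v) (h7 : κ u' ≠ κ v) :
    E I κ (v :: u :: x :: l) (v :: u' :: x :: l) :=
  ReflTransGen.single (Sw.here l h1 h2 h3 h4 h5 h6 h7)

variable (I κ)

/-- `y` lies below the endpoint of `w`. -/
def Dn (w : List V) (y : V) : Prop := ∃ h l, E I κ w (h :: y :: l)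

variable (v₀ : V)

/-- Geodesic words. -/
inductive Good : List V → Prop
  | nil : Good [v₀]
  | cons {v u : V} {l : List V} : Good (u :: l) → Ad I κ u v → ¬ Dn I κ (u :: l) v →
      Good (v :: u :: l)

variable {I κ v₀}

theorem Dn.congr {w w' : List V} (h : E I κ w w') {y : V} (hy : Dn I κ w y) : Dn I κ w' y := by
  obtain ⟨a, u, hu⟩ := hy
  exact ⟨a, u, h.symm.trans hu⟩

theorem dn_self (v y : V) (l : List V) : Dn I κ (v :: y :: l) y := ⟨v, l, ReflTransGen.refl⟩

theorem Good.tail {v u : V} {l : List V} (h : Good I κ v₀ (v :: u :: l)) :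
    Good I κ v₀ (u :: l) := by
  cases h with
  | cons h1 _ _ => exact h1

theorem Good.ad {v u : V} {l : List V} (h : Good I κ v₀ (v :: u :: l)) : Ad I κ u v := by
  cases h with
  | cons _ h1 _ => exact h1

theorem Good.up {v u : V} {l : List V} (h : Good I κ v₀ (v :: u :: l)) :
    ¬ Dn I κ (u :: l) v := by
  cases h with
  | cons _ _ h1 => exact h1

theorem Good.ne {v u : V} {l : List V} (h : Good I κ v₀ (v :: u :: l)) : κ u ≠ κ v := h.ad.1

/-- Low panels do not contain upper vertices. -/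
theorem notin {a : P} {v u x y : V} {l k : List V} (h : Good I κ v₀ (v :: u :: l))
    (h1 : E I κ (u :: l) (u :: x :: y :: k)) (hu : I a u) (hx : I a x) (hy : I a y)
    (ky : κ y = κ u) (kx : κ x ≠ κ u) : ¬ I a v := by
  intro hv
  exact h.up ⟨u, y :: k, h1.trans (E.here k hy hu hx hv ky kx h.ne.symm)⟩

/-- The Levi property. -/
inductive LV (I : P → V → Prop) (κ : V → Bool) (v u : V) (l : List V) (u' : V) (l' : List V) :
    Prop
  | eq : u = u' → E I κ (u :: l) (u' :: l') → LV I κ v u l u' l'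
  | one (p : P) (x : V) (m : List V) : κ x = κ v → I p x → I p v → I p u → I p u' →
      E I κ (u :: l) (u :: x :: m) → E I κ (u' :: l') (u' :: x :: m) → LV I κ v u l u' l'
  | two (p q : P) (z x y : V) (m k : List V) : κ v = true → p ≠ q → I p v → I q v → I p z →
      I q z → κ z ≠ κ v → I p u → I p x → I q u' → I q y → κ x = κ v → κ y = κ v →
      E I κ (u :: l) (u :: x :: m) → E I κ (z :: x :: m) (z :: y :: k) →
      E I κ (u' :: l') (u' :: y :: k) → LV I κ v u l u' l'

/-- Two lower vertices which lie on a panel: the panel is low. -/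
theorem LV.low (hK : KC I κ) {p : P} {v x x' : V} {m l : List V} (h : LV I κ v x m x' l)
    (hp : I p v) (hx : I p x) (hx' : I p x') (kx : κ x ≠ κ v) (kx' : κ x' ≠ κ v) :
    x = x' ∨ ∃ y k, κ y = κ v ∧ I p y ∧ E I κ (x :: m) (x :: y :: k) := by
  cases h with
  | eq h1 _ => exact Or.inl h1
  | one p' y k h1 h2 h3 h4 h5 h6 h7 =>
    by_cases hpp : p = p'
    · subst hpp
      exact Or.inr ⟨y, k, h1, h2, h6⟩
    · exact Or.inl (hK.one p p' v x x' hpp hp h3 kx kx' hx h4 hx' h5)
  | two p1 q1 z y1 y2 m1 k2 h1 h2 h3 h4 h5 h6 h7 h8 h9 h10 h11 h12 h13 h14 h15 h16 =>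
    by_cases hp1 : p = p1
    · subst hp1
      exact Or.inr ⟨y1, m1, h12, h9, h14⟩
    · by_cases hq1 : p = q1
      · subst hq1
        have e1 : x = z := hK.one p p1 v x z hp1 hp h3 kx h7 hx h8 h6 h5
        subst e1
        exact Or.inr ⟨y2, k2, h13, h11, h14.trans h15⟩
      · refine (hK.n3 v p p1 q1 x z x' h1 ?_ ?_ ?_ hp h3 h4 hx h8 h5 h6 h10 hx' hp1 h2
          (Ne.symm hq1)).elim
        · simpa [h1] using kx
        · simpa [h1] using h7
        · simpa [h1] using kx'

/-- Uniqueness of the rest of the word. -/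
theorem LV.un (hK : KC I κ) {v x : V} {m l : List V} (h : LV I κ v x m x l)
    (kx : κ x ≠ κ v) : E I κ (x :: m) (x :: l) := by
  cases h with
  | eq _ h1 => exact h1
  | one p' y k h1 h2 h3 h4 h5 h6 h7 => exact h6.trans (E.symm h7)
  | two p1 q1 z y1 y2 m1 k2 h1 h2 h3 h4 h5 h6 h7 h8 h9 h10 h11 h12 h13 h14 h15 h16 =>
    have e1 : x = z := hK.one p1 q1 v x z h2 h3 h4 kx h7 h8 h10 h5 h6
    subst e1
    exact (h14.trans h15).trans (E.symm h16)

variable (I κ v₀)

/-- The two statements for words of length at most `n`. -/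
def PP (n : ℕ) : Prop :=
  ∀ z : List V, z.length ≤ n → Good I κ v₀ z → (∀ z', E I κ z z' → Good I κ v₀ z') ∧
    ∀ v u l u' l', z = v :: u :: l → E I κ z (v :: u' :: l') → LV I κ v u l u' l'

variable {I κ v₀}

/-- One move preserves geodesic words. -/
theorem step_a (hK : KC I κ) {n : ℕ} (ih : PP I κ v₀ n) :
    ∀ {z z' : List V}, Sw I κ z z' → z.length ≤ n + 1 → Good I κ v₀ z → Good I κ v₀ z' := by
  intro z z' hs
  induction hs with
  | @here p x v u u' l h1 h2 h3 h4 h5 h6 h7 =>
    intro hlen hg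
    have hg1 := hg.tail
    have hg2 := hg1.tail
    have hlen' : (u' :: x :: l).length ≤ n := by
      simp only [List.length_cons] at hlen ⊢
      omega
    have hux : κ u' ≠ κ x := by rw [h5]; exact h7
    have hu' : ¬ Dn I κ (x :: l) u' := by
      rintro ⟨a, m, ha⟩
      obtain ⟨_, hb⟩ := E.head ha
      obtain ⟨rfl, -⟩ := List.cons.inj hb
      refine hg.up ⟨u, u' :: m, (E.cons u ha).trans (E.here m h4 h3 h1 h2 (bb h7 h6) ?_ h6.symm)⟩
      rw [h5]
      exact h6.symm
    have hg3 : Good I κ v₀ (u' :: x :: l) := Good.cons hg2 ⟨hux.symm, p, h1, h4⟩ hu'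
    refine Good.cons hg3 ⟨h7, p, h4, h2⟩ ?_
    rintro ⟨a, m, ha⟩
    obtain ⟨_, hb⟩ := E.head ha
    obtain ⟨rfl, -⟩ := List.cons.inj hb
    have hL := (ih _ hlen' hg3).2 _ _ _ _ _ rfl ha
    rcases hL.low hK h4 h1 h2 hux.symm h7.symm with h8 | ⟨y, k, h8, h9, h10⟩
    · rw [← h8] at hg
      exact hg.up (dn_self _ _ _)
    · exact notin hg (E.cons u h10) h3 h1 h9 (h8.trans (bb h7 h6))
        (by rw [h5]; exact h6.symm) h2
  | @cons v w w' hs ih' =>
    intro hlen hg
    obtain ⟨u, l, rfl⟩ : ∃ u l, w = u :: l := by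
      cases hs with
      | here l _ _ _ _ _ _ _ => exact ⟨_, _, rfl⟩
      | cons _ _ => exact ⟨_, _, rfl⟩
    obtain ⟨l', rfl⟩ := hs.head
    have h1 := ih' (by simp only [List.length_cons] at hlen ⊢; omega) hg.tail
    exact Good.cons h1 hg.ad (fun h2 => hg.up (h2.congr (ReflTransGen.single hs.symm)))

theorem steps_a (hK : KC I κ) {n : ℕ} (ih : PP I κ v₀ n) {z z' : List V} (h : E I κ z z') :
    z.length ≤ n + 1 → Good I κ v₀ z → Good I κ v₀ z' := by
  intro hlen hg
  induction h with
  | refl => exact hg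
  | tail h1 h2 ih' =>
    exact step_a hK ih h2 (by rw [← E.length h1]; exact hlen) ih'

end Pool.Agent.Helper9.LT
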