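import Pool.Agent.Helper9.LT.NF

/-!
# The Levi property of geodesic words in kite complexes
-/

set_option autoImplicit false

namespace Pool.Agent.Helper9.LT

open Relation Pool.Agent.Helper13.LT

variable {V P : Type} {I : P → V → Prop} {κ : V → Bool} {v₀ : V}

/-- A top move. -/
theorem levi_top (hK : KC I κ) {n : ℕ} (ih : PP I κ v₀ n) {v u : V} {l : List V}
    (hlen : (v :: u :: l).length ≤ n + 1) (hgE : ∀ z', E I κ (v :: u :: l) z' → Good I κ v₀ z')
    {p2 : P} {x1 u1 u2 : V} {m : List V} (hE : E I κ (v :: u :: l) (v :: u1 :: x1 :: m))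
    (hL : LV I κ v u l u1 (x1 :: m)) (g1 : I p2 x1) (g2 : I p2 v) (g3 : I p2 u1) (g4 : I p2 u2)
    (g5 : κ x1 = κ v) (g6 : κ u1 ≠ κ v) (g7 : κ u2 ≠ κ v) : LV I κ v u l u2 (x1 :: m) := by
  have hg1 := hgE _ hE
  have hlen1 : (u1 :: x1 :: m).length ≤ n := by
    have := E.length hE
    simp only [List.length_cons] at this hlen ⊢
    omega
  have hLu : ∀ u' l', E I κ (u1 :: x1 :: m) (u1 :: u' :: l') → LV I κ u1 x1 m u' l' :=
    fun u' l' h => (ih _ hlen1 hg1.tail).2 _ _ _ _ _ rfl h
  have k1 : κ x1 ≠ κ u1 := by rw [g5]; exact g6.symm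
  have C : ∀ {p : P} {x : V} {k : List V}, I p x1 → I p v → I p u1 → I p x → κ x = κ v →
      E I κ (u1 :: x1 :: m) (u1 :: x :: k) → x1 = x ∧ E I κ (x1 :: m) (x :: k) := by
    intro p x k h1 h2 h3 h4 h5 h6
    have h7 := hLu _ _ h6
    rcases h7.low hK h3 h1 h4 k1 (by rw [h5]; exact g6.symm) with h8 | ⟨y, k', h8, h9, h10⟩
    · subst h8
      exact ⟨rfl, h7.un hK k1⟩
    · exact (notin hg1 (E.cons u1 h10) h3 h1 h9 h8 k1 h2).elim
  cases hL with
  | eq h1 h2 =>
    subst h1
    exact LV.one p2 x1 m g5 g1 g2 g3 g4 h2 ReflTransGen.refl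
  | one p x k a1 a2 a3 a4 a5 a6 a7 =>
    by_cases hpp : p = p2
    · subst hpp
      exact LV.one p x k a1 a2 a3 a4 g4 a6 (by
        have := (C g1 g2 g3 a2 a1 a7)
        exact E.cons u2 this.2)
    · cases hκ : κ v with
      | true =>
        exact LV.two p p2 u1 x x1 k m hκ hpp a3 g2 a5 g3 g6 a4 a2 g4 g1 a1 g5 a6 (E.symm a7)
          ReflTransGen.refl
      | false =>
        exfalso
        have hu1 : κ u1 = true := by simpa [hκ] using g6
        have k2 : κ x ≠ κ u1 := by rw [a1]; exact g6.symm
        have kx1 : κ x1 = false := g5.trans hκ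
        have kx : κ x = false := a1.trans hκ
        cases hLu _ _ a7 with
        | eq e1 _ =>
          subst e1
          have e2 : x1 = v := hK.one p p2 u1 x1 v hpp a5 g3 k1 g6.symm a2 g1 a3 g2
          exact hg1.up (by rw [← e2]; exact dn_self _ _ _)
        | one a y k' b1 b2 b3 b4 b5 b6 b7 =>
          have nv : ¬ I a v := notin hg1 (E.cons u1 b6) b3 b4 b2 b1 k1
          exact hK.n3 u1 p p2 a v x1 x hu1 hκ kx1 kx a5 g3 b3 a3 g2 g1 b4 b5 a2 hpp
            (fun h => nv (h ▸ g2)) (fun h => nv (h.symm ▸ a3))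
        | two a b z' y y' k1' k2' c1 c2 c3 c4 c5 c6 c7 c8 c9 c10 c11 c12 c13 c14 c15 c16 =>
          have nva : ¬ I a v := notin hg1 (E.cons u1 c14) c3 c8 c9 c12 k1
          have nvb : ¬ I b v := notin hg1 (a7.trans (E.cons u1 c16)) c4 c10 c11 c13 k2
          have kz' : κ z' = false := by simpa [c1] using c7
          rcases hK.n4 u1 p p2 a b v x1 z' x hu1 hκ kx1 kz' kx a5 g3 c3 c4 a3 g2 g1 c8 c5 c6
            c10 a2 hpp (fun h => nva (h ▸ g2)) c2 (fun h => nvb (h.symm ▸ a3)) with h | h
          · exact nva (h ▸ a3)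
          · exact nvb (h ▸ g2)
  | two p q z x y k k' b1 b2 b3 b4 b5 b6 b7 b8 b9 b10 b11 b12 b13 b14 b15 b16 =>
    have hu1 : κ u1 = false := by simpa [b1] using g6
    have hz : κ z = false := by simpa [b1] using b7
    have kx : κ x = true := b12.trans b1
    have ky : κ y = true := b13.trans b1
    have kx1 : κ x1 = true := g5.trans b1
    have kyu1 : κ y ≠ κ u1 := by rw [ky, hu1]; simp
    have kxu1 : κ x1 ≠ κ u1 := by rw [kx1, hu1]; simp
    have kyz : κ y ≠ κ z := by rw [ky, hz]; simp
    have kxz : κ x ≠ κ z := by rw [kx, hz]; simp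
    by_cases hq : p2 = q
    · subst hq
      have h1 := C g1 g2 g3 b11 b13 b16
      exact LV.two p p2 z x y k k' b1 b2 b3 b4 b5 b6 b7 b8 b9 g4 b11 b12 b13 b14 b15
        (E.cons u2 h1.2)
    · by_cases hzu : z = u1
      · subst hzu
        rcases hK.le_two p q p2 v z (Ne.symm b7) b3 b5 b4 b6 g2 g3 with h | h | h
        · exact (b2 h).elim
        · subst h
          have h1 := C g1 g2 g3 b9 b12 (b16.trans (E.symm b15))
          exact LV.one p x k b12 b9 b3 b8 g4 b14 (E.cons u2 h1.2)
        · exact (hq h.symm).elim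
      · exfalso
        -- the word `v z x k`
        have hE2 : E I κ (v :: u :: l) (v :: z :: x :: k) :=
          (E.cons v b14).trans (E.here k b9 b3 b8 b5 b12 (by
            have := (hgE _ ReflTransGen.refl).ne
            exact this) b7)
        have hg2 := hgE _ hE2
        have hxy : x ≠ y := by
          intro h
          subst h
          have h1 : x = v := hK.one p q z x v b2 b5 b6 kxz (Ne.symm b7) b9 b11 b3 b4
          exact hg2.up (by rw [← h1]; exact dn_self _ _ _)
        have hx1y : x1 ≠ y := by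
          intro h
          subst h
          have h1 : x1 = v := hK.one p2 q u1 x1 v hq g3 b10 kxu1 g6.symm g1 b11 g2 b4
          exact hg1.up (by rw [← h1]; exact dn_self _ _ _)
        have hlen2 : (z :: x :: k).length ≤ n := by
          have := E.length hE2
          simp only [List.length_cons] at this hlen ⊢
          omega
        have hLz := (ih _ hlen2 hg2.tail).2 _ _ _ _ _ rfl b15
        cases hLz with
        | eq h _ => exact hxy h
        | two _ _ _ _ _ _ _ h => rw [hz] at h; exact Bool.noConfusion h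
        | one b w h c1 c2 c3 c4 c5 c6 c7 =>
          cases hLu _ _ b16 with
          | eq h _ => exact hx1y h
          | two _ _ _ _ _ _ _ h => rw [hu1] at h; exact Bool.noConfusion h
          | one a w' h' d1 d2 d3 d4 d5 d6 d7 =>
            have nva : ¬ I a v := notin hg1 (E.cons u1 d6) d3 d4 d2 d1 kxu1
            have nvb : ¬ I b v := notin hg2 (E.cons z c6) c3 c4 c2 c1 kxz
            have haq : a ≠ q := fun h => nva (h.symm ▸ b4)
            have hbq : b ≠ q := fun h => nvb (h.symm ▸ b4)
            have hab : a ≠ b := by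
              intro h
              subst h
              exact hzu (hK.one a q y z u1 haq c5 b11 kyz.symm kyu1.symm c3 b6 d3 b10)
            -- the word `y k'`
            have hgz : Good I κ v₀ (z :: y :: k') :=
              (ih _ hlen2 hg2.tail).1 _ b15
            have hgu : Good I κ v₀ (u1 :: y :: k') :=
              (ih _ hlen1 hg1.tail).1 _ b16
            have hgy := hgz.tail
            have hgy2 : Good I κ v₀ (y :: w :: h) := by
              refine (ih _ ?_ hgy).1 _ c7
              have := E.length b15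
              simp only [List.length_cons] at this hlen2 ⊢
              omega
            have hlen3 : (y :: w :: h).length ≤ n := by
              have h1 := E.length b15
              have h2 := E.length c7
              simp only [List.length_cons] at h1 h2 hlen2 ⊢
              omega
            have hw : κ w = false := c1.trans hz
            have hw' : κ w' = false := d1.trans hu1
            have nz : ∀ {e : P} {w g : V} {m : List V}, E I κ (y :: k') (y :: w :: g :: m) →
                I e y → I e w → I e g → κ w = false → κ g = true → ¬ I e z ∧ ¬ I e u1 := by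
              intro e w g m h1 h2 h3 h4 h5 h6
              exact ⟨notin hgz h1 h2 h3 h4 (h6.trans ky.symm) (by rw [h5, ky]; simp),
                notin hgu h1 h2 h3 h4 (h6.trans ky.symm) (by rw [h5, ky]; simp)⟩
            cases (ih _ hlen3 hgy2).2 _ _ _ _ _ rfl ((E.symm c7).trans d7) with
            | eq h1 _ =>
              subst h1
              exact hK.n3 y b q a z u1 w ky hz hu1 hw c5 b11 d5 c3 b6 b10 d3 d2 c2
                hbq haq.symm hab
            | one e g m e1 e2 e3 e4 e5 e6 e7 =>
              obtain ⟨f1, f2⟩ := nz (c7.trans (E.cons y e6)) e3 e4 e2 hw (e1.trans ky)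
              rcases hK.n4 y b q a e z u1 w' w ky hz hu1 hw' hw c5 b11 d5 e3 c3 b6 b10 d3 d2 e5
                e4 c2 hbq haq.symm (fun h => f2 (h ▸ d3)) (fun h => f1 (h.symm ▸ c3)) with h | h
              · exact hab h.symm
              · exact f1 (h ▸ b6)
            | two e e' z'' g g' m m' f1 f2 f3 f4 f5 f6 f7 f8 f9 f10 f11 f12 f13 f14 f15 f16 =>
              obtain ⟨r1, r2⟩ := nz (c7.trans (E.cons y f14)) f3 f8 f9 hw (f12.trans ky)
              obtain ⟨s1, s2⟩ := nz (d7.trans (E.cons y f16)) f4 f10 f11 hw' (f13.trans ky)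
              have hz'' : κ z'' = false := by simpa [ky] using f7
              exact hK.n5 y b q a e' e z u1 w' z'' w ky hz hu1 hw' hz'' hw c5 b11 d5 f4 f3 c3 b6
                b10 d3 d2 f10 f6 f5 f8 c2 hbq haq.symm (fun h => s2 (h ▸ d3)) f2.symm
                (fun h => r1 (h.symm ▸ c3))

/-- The induction step. -/
theorem pp_succ (hK : KC I κ) {n : ℕ} (ih : PP I κ v₀ n) : PP I κ v₀ (n + 1) := by
  intro z hlen hg
  have hgE : ∀ z', E I κ z z' → Good I κ v₀ z' := fun z' hz' => steps_a hK ih hz' hlen hg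
  refine ⟨hgE, ?_⟩
  rintro v u l u' l' rfl hE
  obtain ⟨z', hz'⟩ : ∃ z', z' = v :: u' :: l' := ⟨_, rfl⟩
  rw [← hz'] at hE
  induction hE generalizing u' l' with
  | refl =>
    obtain ⟨-, h1⟩ := List.cons.inj hz'
    obtain ⟨rfl, rfl⟩ := List.cons.inj h1
    exact LV.eq rfl ReflTransGen.refl
  | @tail z1 z2 h1 h2 ih' =>
    subst hz'
    cases h2 with
    | @here p2 x1 _ u1 _ m g1 g2 g3 g4 g5 g6 g7 =>
      exact levi_top hK ih hlen hgE h1 (ih' _ _ rfl) g1 g2 g3 g4 g5 g6 g7
    | @cons _ w _ hs =>
      obtain ⟨l1, rfl⟩ := hs.symm.head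
      have e1 : E I κ (u' :: l') (u' :: l1) := ReflTransGen.single hs.symm
      cases ih' _ _ rfl with
      | eq h3 h4 => exact LV.eq h3 (h4.trans (E.symm e1))
      | one p x m a1 a2 a3 a4 a5 a6 a7 =>
        exact LV.one p x m a1 a2 a3 a4 a5 a6 (e1.trans a7)
      | two p q z x y m k b1 b2 b3 b4 b5 b6 b7 b8 b9 b10 b11 b12 b13 b14 b15 b16 =>
        exact LV.two p q z x y m k b1 b2 b3 b4 b5 b6 b7 b8 b9 b10 b11 b12 b13 b14 b15
          (e1.trans b16)

theorem pp (hK : KC I κ) (n : ℕ) : PP I κ v₀ n := by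
  induction n with
  | zero =>
    intro z hlen hg
    cases hg with
    | nil => simp at hlen
    | cons _ _ _ => simp at hlen
  | succ n ih => exact pp_succ hK ih

theorem good_of_E (hK : KC I κ) {z z' : List V} (hg : Good I κ v₀ z) (h : E I κ z z') :
    Good I κ v₀ z' :=
  (pp hK z.length z le_rfl hg).1 z' h

theorem levi (hK : KC I κ) {v u u' : V} {l l' : List V} (hg : Good I κ v₀ (v :: u :: l))
    (h : E I κ (v :: u :: l) (v :: u' :: l')) : LV I κ v u l u' l' :=
  (pp hK _ _ le_rfl hg).2 _ _ _ _ _ rfl h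

end Pool.Agent.Helper9.LT
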