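import Pool.Agent.Helper9.LT.NF2

/-!
# The action on geodesic words and the gates of the panels
-/

set_option autoImplicit false

namespace Pool.Agent.Helper9.LT

open Relation Pool.Agent.Helper13.LT

variable {V P : Type} {I : P → V → Prop} {κ : V → Bool} {v₀ : V}

/-- `w'` is the result of the action of the vertex `v` on the word `w`. -/
inductive Act (I : P → V → Prop) (κ : V → Bool) (w : List V) (v : V) (w' : List V) : Prop
  | down (h : V) (l : List V) : E I κ w (h :: v :: l) → E I κ w' (v :: l) → Act I κ w v w'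
  | up : ¬ Dn I κ w v → E I κ w' (v :: w) → Act I κ w v w'

theorem Act.congr_right {w w' w'' : List V} {v : V} (h : Act I κ w v w')
    (h' : E I κ w'' w') : Act I κ w v w'' := by
  cases h with
  | down a l h1 h2 => exact Act.down a l h1 (h'.trans h2)
  | up h1 h2 => exact Act.up h1 (h'.trans h2)

theorem Act.congr_left {w w' w'' : List V} {v : V} (h : Act I κ w v w')
    (h' : E I κ w w'') : Act I κ w'' v w' := by
  cases h with
  | down a l h1 h2 => exact Act.down a l ((E.symm h').trans h1) h2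
  | up h1 h2 => exact Act.up (fun h3 => h1 (h3.congr (E.symm h'))) (h2.trans (E.cons v h'))

theorem Act.head {w w' : List V} {v : V} (h : Act I κ w v w') : ∃ l, w' = v :: l := by
  cases h with
  | down a l h1 h2 => exact (E.symm h2).head
  | up h1 h2 => exact (E.symm h2).head

theorem exists_act (w : List V) (v : V) : ∃ l, Act I κ w v (v :: l) := by
  by_cases h1 : Dn I κ w v
  · obtain ⟨h, l, hl⟩ := h1
    exact ⟨l, Act.down h l hl ReflTransGen.refl⟩
  · exact ⟨w, Act.up h1 ReflTransGen.refl⟩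

theorem E.head_eq {u v : V} {l l' : List V} (h : E I κ (u :: l) (v :: l')) : u = v := by
  obtain ⟨_, h1⟩ := h.head
  exact (List.cons.inj h1).1.symm

section

variable (hK : KC I κ)
include hK

theorem Act.good {u v : V} {l w' : List V} (hg : Good I κ v₀ (u :: l)) (ha : Ad I κ u v)
    (h : Act I κ (u :: l) v w') : Good I κ v₀ w' := by
  cases h with
  | down a m h1 h2 => exact good_of_E hK (good_of_E hK hg h1).tail (E.symm h2)
  | up h1 h2 => exact good_of_E hK (Good.cons hg ha h1) (E.symm h2)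

theorem Act.unique {u v : V} {l w₁ w₂ : List V} (hg : Good I κ v₀ (u :: l))
    (h₁ : Act I κ (u :: l) v w₁) (h₂ : Act I κ (u :: l) v w₂) : E I κ w₁ w₂ := by
  cases h₁ with
  | down a m h1 h1' =>
    cases h₂ with
    | down b n h2 h2' =>
      obtain rfl := E.head_eq h1
      obtain rfl := E.head_eq h2
      have h3 := good_of_E hK hg h1
      exact (h1'.trans ((levi hK h3 ((E.symm h1).trans h2)).un hK h3.ne)).trans (E.symm h2')
    | up h2 h3 => exact (h2 ⟨_, _, h1⟩).elim
  | up h1 h2 =>
    cases h₂ with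
    | down b n h3 _ => exact (h1 ⟨_, _, h3⟩).elim
    | up h3 h4 => exact h2.trans (E.symm h4)

theorem Act.symm {u v : V} {l l' : List V} (hg : Good I κ v₀ (u :: l)) (ha : Ad I κ u v)
    (h : Act I κ (u :: l) v (v :: l')) : Act I κ (v :: l') u (u :: l) := by
  cases h with
  | down a m h1 h2 =>
    obtain rfl := E.head_eq h1
    have h3 := good_of_E hK hg h1
    exact Act.up (fun h4 => h3.up (h4.congr h2)) (h1.trans (E.cons u (E.symm h2)))
  | up h1 h2 => exact Act.down v l h2 ReflTransGen.refl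

end

/-! ### The gates -/

/-- `x :: m` is a geodesic word which ends at the lowest vertex of the panel `p`. -/
structure Gw (I : P → V → Prop) (κ : V → Bool) (v₀ : V) (p : P) (x : V) (m : List V) : Prop where
  good : Good I κ v₀ (x :: m)
  mem : I p x
  low : ∀ y, I p y → ¬ Dn I κ (x :: m) y

/-- The words which end on the panel `p` with the gate `x`. -/
inductive Cn (I : P → V → Prop) (κ : V → Bool) (p : P) (x : V) (m w : List V) : Prop
  | zero : E I κ w (x :: m) → Cn I κ p x m w
  | one (v : V) : I p v → κ v ≠ κ x → E I κ w (v :: x :: m) → Cn I κ p x m w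
  | two (v x' : V) : I p v → κ v ≠ κ x → I p x' → κ x' = κ x → x' ≠ x →
      E I κ w (x' :: v :: x :: m) → Cn I κ p x m w

theorem Cn.congr {p : P} {x : V} {m w w' : List V} (h : Cn I κ p x m w) (h' : E I κ w' w) :
    Cn I κ p x m w' := by
  cases h with
  | zero h1 => exact Cn.zero (h'.trans h1)
  | one v h1 h2 h3 => exact Cn.one v h1 h2 (h'.trans h3)
  | two v x' h1 h2 h3 h4 h5 h6 => exact Cn.two v x' h1 h2 h3 h4 h5 (h'.trans h6)

/-- Words in the cone with the same end. -/
theorem Cn.unique {p : P} {x y : V} {m l l' : List V} (hx : I p x)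
    (h : Cn I κ p x m (y :: l)) (h' : Cn I κ p x m (y :: l')) : E I κ (y :: l) (y :: l') := by
  cases h with
  | zero h1 =>
    have e1 := E.head_eq h1
    cases h' with
    | zero h2 => exact h1.trans (E.symm h2)
    | one v h2 h3 h4 => exact (h3 (by rw [← E.head_eq h4, e1])).elim
    | two v x' h2 h3 h4 h5 h6 h7 => exact (h6 (by rw [← E.head_eq h7, e1])).elim
  | one v h1 h2 h3 =>
    have e1 := E.head_eq h3
    cases h' with
    | zero h4 => exact (h2 (by rw [← e1, E.head_eq h4])).elim
    | one v' h4 h5 h6 =>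
      have e2 := E.head_eq h6
      subst e1
      subst e2
      exact h3.trans (E.symm h6)
    | two v' x' h4 h5 h6 h7 h8 h9 => exact (h2 (by rw [← e1, E.head_eq h9, h7])).elim
  | two v x' h1 h2 h3 h4 h5 h6 =>
    have e1 := E.head_eq h6
    cases h' with
    | zero h7 => exact (h5 (by rw [← e1, E.head_eq h7])).elim
    | one v' h7 h8 h9 => exact (h8 (by rw [← E.head_eq h9, e1, h4])).elim
    | two v' x'' h7 h8 h9 h10 h11 h12 =>
      have e2 := E.head_eq h12
      subst e1
      subst e2
      refine h6.trans ((E.here m hx h3 h1 h7 h4.symm ?_ ?_).trans (E.symm h12))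
      · rw [h4]
        exact h2
      · rw [h4]
        exact h8

section

variable (hK : KC I κ)
include hK

omit hK in
theorem Gw.one {p : P} {x v : V} {m : List V} (hG : Gw I κ v₀ p x m) (hv : I p v)
    (kv : κ v ≠ κ x) : Good I κ v₀ (v :: x :: m) :=
  Good.cons hG.good ⟨kv.symm, p, hG.mem, hv⟩ (hG.low v hv)

theorem Gw.up {p : P} {x v x' : V} {m : List V} (hG : Gw I κ v₀ p x m) (hv : I p v)
    (kv : κ v ≠ κ x) (hx' : I p x') (kx' : κ x' = κ x) (hne : x' ≠ x) :
    ¬ Dn I κ (v :: x :: m) x' := by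
  rintro ⟨a, l, ha⟩
  obtain rfl := E.head_eq ha
  rcases (levi hK (hG.one hv kv) ha).low hK hv hG.mem hx' kv.symm (by rw [kx']; exact kv.symm)
    with h | ⟨y, k, h1, h2, h3⟩
  · exact hne h.symm
  · exact hG.low y h2 ⟨x, k, h3⟩

theorem Gw.two {p : P} {x v x' : V} {m : List V} (hG : Gw I κ v₀ p x m) (hv : I p v)
    (kv : κ v ≠ κ x) (hx' : I p x') (kx' : κ x' = κ x) (hne : x' ≠ x) :
    Good I κ v₀ (x' :: v :: x :: m) :=
  Good.cons (hG.one hv kv) ⟨by rw [kx']; exact kv, p, hv, hx'⟩ (hG.up hK hv kv hx' kx' hne)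

theorem Cn.good {p : P} {x : V} {m w : List V} (hG : Gw I κ v₀ p x m) (h : Cn I κ p x m w) :
    Good I κ v₀ w := by
  cases h with
  | zero h1 => exact good_of_E hK hG.good (E.symm h1)
  | one v h1 h2 h3 => exact good_of_E hK (hG.one h1 h2) (E.symm h3)
  | two v x' h1 h2 h3 h4 h5 h6 =>
    exact good_of_E hK (hG.two hK h1 h2 h3 h4 h5) (E.symm h6)

/-- The cones are invariant under the action of the vertices of the panel. -/
theorem Cn.act {p : P} {x y y' : V} {m l w' : List V} (hG : Gw I κ v₀ p x m)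
    (hC : Cn I κ p x m (y :: l)) (hy : I p y) (hy' : I p y') (hne : κ y ≠ κ y')
    (h : Act I κ (y :: l) y' w') : Cn I κ p x m w' := by
  cases hC with
  | zero h1 =>
    obtain rfl := E.head_eq h1
    have h2 := h.congr_left h1
    cases h2 with
    | down a n h3 _ => exact (hG.low y' hy' ⟨_, _, h3⟩).elim
    | up h3 h4 => exact Cn.one y' hy' hne.symm h4
  | one v h1 h2 h3 =>
    obtain rfl := E.head_eq h3
    have h4 := h.congr_left h3
    by_cases hx : y' = x
    · subst hx
      exact Cn.zero (h4.unique hK (hG.one h1 h2)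
        (Act.down y m ReflTransGen.refl ReflTransGen.refl))
    · have k1 : κ y' = κ x := bb hne.symm h2.symm
      have h5 := hG.up hK h1 h2 hy' k1 hx
      cases h4 with
      | down a n h6 _ => exact (h5 ⟨_, _, h6⟩).elim
      | up h6 h7 => exact Cn.two y y' h1 h2 hy' k1 hx h7
  | two v x' h1 h2 h3 h4 h5 h6 =>
    obtain rfl := E.head_eq h6
    have k1 : κ y' ≠ κ x := by rw [← h4]; exact hne.symm
    have h7 : E I κ (y :: v :: x :: m) (y :: y' :: x :: m) :=
      E.here m hG.mem hy h1 hy' h4.symm (by rw [h4]; exact h2) hne.symm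
    have h8 := h.congr_left (h6.trans h7)
    exact Cn.one y' hy' k1 (h8.unique hK (good_of_E hK (hG.two hK h1 h2 h3 h4 h5) h7)
      (Act.down y _ ReflTransGen.refl ReflTransGen.refl))

/-- Each geodesic word which ends on a panel has a gate. -/
theorem exists_gate {p : P} {u : V} {l : List V} (hg : Good I κ v₀ (u :: l)) (hu : I p u) :
    ∃ x m, Gw I κ v₀ p x m ∧ Cn I κ p x m (u :: l) := by
  by_cases h1 : ∃ v, I p v ∧ Dn I κ (u :: l) v
  · obtain ⟨v, hv, a, l', h2⟩ := h1
    obtain rfl := E.head_eq h2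
    have hg2 := good_of_E hK hg h2
    have kv : κ v ≠ κ u := hg2.ne
    by_cases h3 : ∃ x, I p x ∧ Dn I κ (v :: l') x
    · obtain ⟨x, hx, b, m, h4⟩ := h3
      obtain rfl := E.head_eq h4
      have hg3 := good_of_E hK hg2.tail h4
      have kx : κ x ≠ κ v := hg3.ne
      have kxu : κ x = κ u := bb kx kv.symm
      refine ⟨x, m, ⟨hg3.tail, hx, ?_⟩, ?_⟩
      · rintro v' hv' ⟨b, m', h5⟩
        obtain rfl := E.head_eq h5
        have kv' : κ v' ≠ κ x := (good_of_E hK hg3.tail h5).ne
        exact hg2.up ⟨v, v' :: m', h4.trans ((E.cons v h5).trans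
          (E.here m' hv' hv hx hu (bb kv' kx.symm) kx kv.symm))⟩
      · have hux : u ≠ x := by
          intro h
          subst h
          exact hg2.up ⟨_, _, h4⟩
        exact Cn.two v u hv kx.symm hu kxu.symm hux (h2.trans (E.cons u h4))
    · refine ⟨v, l', ⟨hg2.tail, hv, fun y hy hd => h3 ⟨y, hy, hd⟩⟩, ?_⟩
      exact Cn.one u hu kv.symm h2
  · exact ⟨u, l, ⟨hg, hu, fun y hy hd => h1 ⟨y, hy, hd⟩⟩, Cn.zero ReflTransGen.refl⟩

/-- The relation of a panel. -/
theorem Act.panel {p : P} {u u' v v' : V} {l l1 l2 l3 l4 : List V} (hg : Good I κ v₀ (u :: l))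
    (hu : I p u) (hu' : I p u') (hv : I p v) (hv' : I p v') (kuv : κ u ≠ κ v)
    (ku : κ u = κ u') (kv : κ v = κ v') (h1 : Act I κ (u :: l) v (v :: l1))
    (h2 : Act I κ (v :: l1) u' (u' :: l2)) (h3 : Act I κ (u :: l) v' (v' :: l3))
    (h4 : Act I κ (v' :: l3) u' (u' :: l4)) : E I κ (u' :: l2) (u' :: l4) := by
  obtain ⟨x, m, hG, hC⟩ := exists_gate hK hg hu
  have hC1 := hC.act hK hG hu hv kuv h1
  have hC2 := hC1.act hK hG hv hu' (by rw [← ku]; exact kuv.symm) h2
  have hC3 := hC.act hK hG hu hv' (by rw [← kv]; exact kuv) h3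
  have hC4 := hC3.act hK hG hv' hu' (by rw [← ku, ← kv]; exact kuv.symm) h4
  exact hC2.unique hG.mem hC4

end

end Pool.Agent.Helper9.LT
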