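import Pool.Agent.Helper9.LT.NF3

/-!
# Uniqueness of geodesic words in simply connected kite complexes and the levels
-/

set_option autoImplicit false

namespace Pool.Agent.Helper9.LT

open Relation Pool.Agent.Helper13.LT

variable {V P : Type} (I : P → V → Prop) (κ : V → Bool) (v₀ : V)

/-- The geodesic words ending at `v`. -/
def Wd (v : V) : Type := {l : List V // Good I κ v₀ (v :: l)}

/-- Words up to moves. -/
def fs (v : V) : Setoid (Wd I κ v₀ v) where
  r a b := E I κ (v :: a.1) (v :: b.1)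
  iseqv := ⟨fun _ => ReflTransGen.refl, fun h => E.symm h, fun h h' => ReflTransGen.trans h h'⟩

/-- The fibre over `v`. -/
def Fb (v : V) : Type := Quotient (fs I κ v₀ v)

variable {I κ v₀}

/-- The class of a word. -/
def cl {v : V} (a : Wd I κ v₀ v) : Fb I κ v₀ v := Quotient.mk (fs I κ v₀ v) a

theorem cl_eq {v : V} {a b : Wd I κ v₀ v} : cl a = cl b ↔ E I κ (v :: a.1) (v :: b.1) :=
  ⟨fun h => Quotient.exact h, fun h => Quotient.sound h⟩

theorem cl_surj {v : V} (x : Fb I κ v₀ v) : ∃ a, cl a = x := Quotient.exists_rep x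

theorem Ad.symm {u v : V} (h : Ad I κ u v) : Ad I κ v u :=
  ⟨h.1.symm, h.2.imp fun _ h => ⟨h.2, h.1⟩⟩

section

variable (hK : KC I κ)

/-- The result of the action. -/
noncomputable def rs (hK : KC I κ) {u v : V} (h : Ad I κ u v) (a : Wd I κ v₀ u) : Wd I κ v₀ v :=
  ⟨(exists_act (I := I) (κ := κ) (u :: a.1) v).choose,
    ((exists_act (I := I) (κ := κ) (u :: a.1) v).choose_spec).good hK a.2 h⟩

theorem rs_act {u v : V} (h : Ad I κ u v) (a : Wd I κ v₀ u) :
    Act I κ (u :: a.1) v (v :: (rs hK h a).1) :=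
  (exists_act (I := I) (κ := κ) (u :: a.1) v).choose_spec

/-- The transport. -/
noncomputable def trf {u v : V} (h : Ad I κ u v) : Fb I κ v₀ u → Fb I κ v₀ v :=
  Quotient.lift (s := fs I κ v₀ u) (fun a => cl (rs hK h a)) (fun a b hab => by
    rw [cl_eq]
    exact ((rs_act hK h a).congr_left hab).unique hK b.2 (rs_act hK h b))

theorem trf_cl {u v : V} (h : Ad I κ u v) {a : Wd I κ v₀ u} {b : Wd I κ v₀ v}
    (h' : Act I κ (u :: a.1) v (v :: b.1)) : trf hK h (cl a) = cl b := by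
  change cl (rs hK h a) = cl b
  rw [cl_eq]
  exact (rs_act hK h a).unique hK a.2 h'

theorem exists_trf {u v : V} (h : Ad I κ u v) (x : Fb I κ v₀ u) :
    ∃ (a : Wd I κ v₀ u) (b : Wd I κ v₀ v), cl a = x ∧ cl b = trf hK h x ∧
      Act I κ (u :: a.1) v (v :: b.1) := by
  obtain ⟨a, rfl⟩ := cl_surj x
  exact ⟨a, rs hK h a, rfl, rfl, rs_act hK h a⟩

theorem trf_inv {u v : V} (h : Ad I κ u v) (h' : Ad I κ v u) (x : Fb I κ v₀ u) :
    trf hK h' (trf hK h x) = x := by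
  obtain ⟨a, b, rfl, hb, hab⟩ := exists_trf hK h x
  rw [← hb]
  exact trf_cl hK _ (hab.symm hK a.2 h)

/-- The transport as an equivalence. -/
noncomputable def trE {u v : V} (h : Ad I κ u v) : Fb I κ v₀ u ≃ Fb I κ v₀ v where
  toFun := trf hK h
  invFun := trf hK (Ad.symm h)
  left_inv := trf_inv hK h _
  right_inv := trf_inv hK (Ad.symm h) _

theorem trf_panel {p : P} {u u' v v' : V} (hu : I p u) (hu' : I p u') (hv : I p v)
    (hv' : I p v') (kuv : κ u ≠ κ v) (ku : κ u = κ u') (kv : κ v = κ v') (h1 : Ad I κ u v)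
    (h2 : Ad I κ v u') (h3 : Ad I κ u v') (h4 : Ad I κ v' u') (x : Fb I κ v₀ u) :
    trf hK h2 (trf hK h1 x) = trf hK h4 (trf hK h3 x) := by
  obtain ⟨a, b, rfl, hb, hab⟩ := exists_trf hK h1 x
  obtain ⟨b', c, hb', hc, hbc⟩ := exists_trf hK h2 (cl b)
  obtain ⟨a', d, ha', hd, had⟩ := exists_trf hK h3 (cl a)
  obtain ⟨d', e, hd', he, hde⟩ := exists_trf hK h4 (cl d)
  have g1 := hbc.congr_left (cl_eq.1 hb')
  have g2 := had.congr_left (cl_eq.1 ha')
  have g3 := hde.congr_left (cl_eq.1 hd')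
  rw [← hb, ← hd, ← hc, ← he, cl_eq]
  exact Act.panel hK a.2 hu hu' hv hv' kuv ku kv hab g1 g2 g3

include hK

theorem nonempty_equiv {v : V} (h : ReflTransGen (Ad I κ) v₀ v) :
    Nonempty (Fb I κ v₀ v ≃ Fb I κ v₀ v₀) := by
  induction h with
  | refl => exact ⟨Equiv.refl _⟩
  | tail _ h2 ih => exact ⟨(trE hK h2).symm.trans ih.some⟩

theorem exists_good {v : V} (h : ReflTransGen (Ad I κ) v₀ v) : ∃ l, Good I κ v₀ (v :: l) := by
  induction h with
  | refl => exact ⟨[], Good.nil⟩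
  | @tail u v _ h2 ih =>
    obtain ⟨l, hl⟩ := ih
    obtain ⟨l', hl'⟩ := exists_act (I := I) (κ := κ) (u :: l) v
    exact ⟨l', hl'.good hK hl h2⟩

/-- Geodesic words with the same end differ by moves. -/
theorem unique_good (hS : SC I κ v₀) {v : V} {l l' : List V} (hw : Good I κ v₀ (v :: l))
    (hw' : Good I κ v₀ (v :: l')) : E I κ (v :: l) (v :: l') := by
  classical
  have hR : ∀ {u v : V}, Ad I κ u v → ReflTransGen (Ad I κ) v₀ u := fun h =>
    hS.conn _ _ h.2.choose_spec.1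
  let τ : ∀ v, ReflTransGen (Ad I κ) v₀ v → (Fb I κ v₀ v ≃ Fb I κ v₀ v₀) := fun v h =>
    (nonempty_equiv hK h).some
  let c : V → V → Equiv.Perm (Fb I κ v₀ v₀) := fun u v =>
    if h : Ad I κ u v then (τ v (hR (Ad.symm h))).symm.trans ((trE hK (Ad.symm h)).trans
      (τ u (hR h))) else 1
  have hc : ∀ {u v : V} (h : Ad I κ u v) (h' : Ad I κ v u) (hu : ReflTransGen (Ad I κ) v₀ u)
      (hv : ReflTransGen (Ad I κ) v₀ v) (x : Fb I κ v₀ v₀),
      c u v x = τ u hu (trf hK h' ((τ v hv).symm x)) := by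
    intro u v h h' hu hv x
    have : c u v = (τ v (hR (Ad.symm h))).symm.trans ((trE hK (Ad.symm h)).trans
      (τ u (hR h))) := dif_pos h
    rw [this]
    rfl
  obtain ⟨g, hg⟩ := hS.sc (Equiv.Perm (Fb I κ v₀ v₀)) c (fun u v h => by
    ext x
    rw [Equiv.Perm.mul_apply, hc (Ad.symm h) h (hR (Ad.symm h)) (hR h),
      hc h (Ad.symm h) (hR h) (hR (Ad.symm h)), Equiv.symm_apply_apply, trf_inv hK,
      Equiv.apply_symm_apply]
    rfl) (fun p u u' v v' hu hu' hv hv' ku kv kuv => by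
    have a1 : Ad I κ u v := ⟨kuv, p, hu, hv⟩
    have a2 : Ad I κ u v' := ⟨by rw [← kv]; exact kuv, p, hu, hv'⟩
    have a3 : Ad I κ u' v := ⟨by rw [← ku]; exact kuv, p, hu', hv⟩
    have a4 : Ad I κ u' v' := ⟨by rw [← ku, ← kv]; exact kuv, p, hu', hv'⟩
    ext x
    rw [Equiv.Perm.mul_apply, Equiv.Perm.mul_apply,
      hc (Ad.symm a3) a3 (hR (Ad.symm a3)) (hR a3),
      hc a1 (Ad.symm a1) (hR a1) (hR (Ad.symm a1)), Equiv.symm_apply_apply,
      hc (Ad.symm a4) a4 (hR (Ad.symm a4)) (hR a4),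
      hc a2 (Ad.symm a2) (hR a2) (hR (Ad.symm a2)), Equiv.symm_apply_apply,
      trf_panel hK hu' hu hv hv' (by rw [← ku]; exact kuv) ku.symm kv a3 (Ad.symm a1) a4
        (Ad.symm a2)])
  let ξ : Fb I κ v₀ v₀ := g v₀ (τ v₀ ReflTransGen.refl (cl ⟨[], Good.nil⟩))
  let σ : ∀ v, ReflTransGen (Ad I κ) v₀ v → Fb I κ v₀ v := fun v h => (τ v h).symm ((g v)⁻¹ ξ)
  have hσ0 : σ v₀ ReflTransGen.refl = cl ⟨[], Good.nil⟩ := by
    have e1 : ∀ y, (g v₀)⁻¹ (g v₀ y) = y := fun y => by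
      rw [← Equiv.Perm.mul_apply, inv_mul_cancel, Equiv.Perm.one_apply]
    change (τ v₀ ReflTransGen.refl).symm
      ((g v₀)⁻¹ (g v₀ (τ v₀ ReflTransGen.refl (cl ⟨[], Good.nil⟩)))) = _
    exact (congrArg (τ v₀ ReflTransGen.refl).symm (e1 _)).trans (Equiv.symm_apply_apply _ _)
  have hσ : ∀ {u v : V} (h : Ad I κ u v) (hu : ReflTransGen (Ad I κ) v₀ u)
      (hv : ReflTransGen (Ad I κ) v₀ v), trf hK h (σ u hu) = σ v hv := by
    intro u v h hu hv
    have h1 := congrArg (fun f : Equiv.Perm (Fb I κ v₀ v₀) => f ((g v)⁻¹ ξ)) (hg u v h)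
    have e1 : g v ((g v)⁻¹ ξ) = ξ := by
      rw [← Equiv.Perm.mul_apply, mul_inv_cancel, Equiv.Perm.one_apply]
    simp only [Equiv.Perm.mul_apply] at h1
    rw [hc h (Ad.symm h) hu hv, e1] at h1
    have h2 : trf hK (Ad.symm h) (σ v hv) = σ u hu := by
      apply (τ u hu).injective
      change _ = τ u hu ((τ u hu).symm ((g u)⁻¹ ξ))
      rw [Equiv.apply_symm_apply, ← h1]
    rw [← h2]
    exact trf_inv hK (Ad.symm h) h _
  have key : ∀ w, Good I κ v₀ w → ∀ (v : V) (l : List V), w = v :: l →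
      ∀ (hw : Good I κ v₀ (v :: l)) (hv : ReflTransGen (Ad I κ) v₀ v),
        cl (⟨l, hw⟩ : Wd I κ v₀ v) = σ v hv := by
    intro w hw
    induction hw with
    | nil =>
      intro v l h _ hv
      obtain ⟨rfl, rfl⟩ := List.cons.inj h
      exact hσ0.symm
    | @cons v' u l' h1 h2 h3 ih =>
      intro v l h hw hv
      obtain ⟨rfl, rfl⟩ := List.cons.inj h
      have h4 := ih _ _ rfl h1 (hR h2)
      have h5 : trf hK h2 (cl (⟨l', h1⟩ : Wd I κ v₀ u)) = cl (⟨u :: l', hw⟩ : Wd I κ v₀ v') :=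
        trf_cl hK h2 (Act.up h3 ReflTransGen.refl)
      rw [← h5, h4]
      exact hσ h2 (hR h2) hv
  have hv : ReflTransGen (Ad I κ) v₀ v := by
    cases hw with
    | nil => exact ReflTransGen.refl
    | cons _ h2 _ => exact hR (Ad.symm h2)
  have h1 := key _ hw v l rfl hw hv
  have h2 := key _ hw' v l' rfl hw' hv
  have h3 := h1.trans h2.symm
  rwa [cl_eq] at h3

end

end Pool.Agent.Helper9.LT
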